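import Mathlib
set_option autoImplicit false
namespace Pool.H109.Lov

/-- count of `true` among a list of Booleans -/
def cnt (l : List Bool) : ℕ := (l.map Bool.toNat).sum

/-- vertex condition: `c` is the colour (`true` = class 1, at most 1 neighbour of own class;
`false` = class 2, at most 3 neighbours of own class). -/
def okv (c : Bool) (l : List Bool) : Bool :=
  bif c then Nat.ble (cnt l) 1 else Nat.ble (cnt (l.map not)) 3

theorem gadget : ∀ b0 b1 b2 b3 b4 b5 b6 b7 b8 b9 : Bool,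
    (okv b0 [b1,b4,b5,b6] && okv b1 [b0,b4,b6,b7,b8] && okv b2 [b4,b6,b7,b8,b9] &&
     okv b3 [b4,b6,b7,b8,b9] && okv b4 [b0,b1,b2,b3,b5] && okv b5 [b0,b4,b6,b7,b8] &&
     okv b6 [b0,b1,b2,b3,b5] && okv b7 [b1,b2,b3,b5,b9] && okv b8 [b1,b2,b3,b5,b9] &&
     okv b9 [b2,b3,b7,b8]) = true → b0 = false := by
  decide

end Pool.H109.Lov
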