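import Mathlib
import Pool.Agent.H109R3.Lov.Gad
set_option autoImplicit false
namespace Pool.H109.Lov
open Nat.Partrec (Code)

/-! Vertices: quadruples `(e,l,i,g)` coded in `ℕ`. -/
def vert (e l i g : ℕ) : ℕ := Nat.pair (Nat.pair e l) (Nat.pair i g)
def pe (x : ℕ) : ℕ := x.unpair.1.unpair.1
def pl (x : ℕ) : ℕ := x.unpair.1.unpair.2
def pi' (x : ℕ) : ℕ := x.unpair.2.unpair.1
def pg (x : ℕ) : ℕ := x.unpair.2.unpair.2

@[simp] lemma pe_vert (e l i g : ℕ) : pe (vert e l i g) = e := by simp [pe, vert]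
@[simp] lemma pl_vert (e l i g : ℕ) : pl (vert e l i g) = l := by simp [pl, vert]
@[simp] lemma pi_vert (e l i g : ℕ) : pi' (vert e l i g) = i := by simp [pi', vert]
@[simp] lemma pg_vert (e l i g : ℕ) : pg (vert e l i g) = g := by simp [pg, vert]
lemma vert_eta (x : ℕ) : vert (pe x) (pl x) (pi' x) (pg x) = x := by
  simp [vert, pe, pl, pi', pg]
lemma vert_inj {e l i g e' l' i' g' : ℕ} :
    vert e l i g = vert e' l' i' g' ↔ e = e' ∧ l = l' ∧ i = i' ∧ g = g' := by
  constructor
  · intro h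
    refine ⟨?_, ?_, ?_, ?_⟩
    · simpa using congrArg pe h
    · simpa using congrArg pl h
    · simpa using congrArg pi' h
    · simpa using congrArg pg h
  · rintro ⟨rfl, rfl, rfl, rfl⟩; rfl

/-- result of the `e`-th machine on the root `(e,0,0,0)` after `l` steps -/
def out (e l : ℕ) : Option ℕ := Code.evaln l (Denumerable.ofNat Code e) (vert e 0 0 0)

/-- is the tree of `e` continued below level `l`? -/
def act (e l : ℕ) : Bool :=
  Option.casesOn (out e l) true (fun b => decide ((l + b) % 2 = 0) && !(out e (l-1)).isSome)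

/-- table of the 10 vertex gadget -/
def Htab : List (List ℕ) :=
  [[1,4,5,6], [0,4,6,7,8], [4,6,7,8,9], [4,6,7,8,9], [0,1,2,3,5], [0,4,6,7,8],
   [0,1,2,3,5], [1,2,3,5,9], [1,2,3,5,9], [2,3,7,8]]

def Hn (g : ℕ) : List ℕ := Htab.getD g []

def gad (e l : ℕ) : Bool := !(act e l) && (decide (1 ≤ l) && act e (l-1))

def Lc (x : ℕ) : List ℕ :=
  bif (decide (pg x = 0) && act (pe x) (pl x)) then
     [vert (pe x) (pl x+1) (4*pi' x) 0, vert (pe x) (pl x+1) (4*pi' x+1) 0,
      vert (pe x) (pl x+1) (4*pi' x+2) 0, vert (pe x) (pl x+1) (4*pi' x+3) 0] else []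
def Lp (x : ℕ) : List ℕ :=
  bif (decide (pg x = 0) && (decide (1 ≤ pl x) && act (pe x) (pl x - 1))) then
     [vert (pe x) (pl x - 1) (pi' x / 4) 0] else []
def Lg (x : ℕ) : List ℕ :=
  bif gad (pe x) (pl x) then (Hn (pg x)).map (fun g => vert (pe x) (pl x) (pi' x) g) else []
def L (x : ℕ) : List ℕ := Lc x ++ (Lp x ++ Lg x)

/-! ### computability -/
lemma prim_vert : Primrec fun p : (ℕ × ℕ) × (ℕ × ℕ) => vert p.1.1 p.1.2 p.2.1 p.2.2 :=
  Primrec₂.natPair.comp (Primrec₂.natPair.comp (Primrec.fst.comp Primrec.fst) (Primrec.snd.comp Primrec.fst))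
    (Primrec₂.natPair.comp (Primrec.fst.comp Primrec.snd) (Primrec.snd.comp Primrec.snd))

lemma prim_vert' {α : Type} [Primcodable α] {a b c d : α → ℕ} (ha : Primrec a) (hb : Primrec b)
    (hc : Primrec c) (hd : Primrec d) : Primrec fun x => vert (a x) (b x) (c x) (d x) :=
  prim_vert.comp ((ha.pair hb).pair (hc.pair hd))

lemma prim_pe : Primrec pe := Primrec.fst.comp (Primrec.unpair.comp (Primrec.fst.comp Primrec.unpair))
lemma prim_pl : Primrec pl := Primrec.snd.comp (Primrec.unpair.comp (Primrec.fst.comp Primrec.unpair))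
lemma prim_pi : Primrec pi' := Primrec.fst.comp (Primrec.unpair.comp (Primrec.snd.comp Primrec.unpair))
lemma prim_pg : Primrec pg := Primrec.snd.comp (Primrec.unpair.comp (Primrec.snd.comp Primrec.unpair))

lemma prim_out : Primrec fun p : ℕ × ℕ => out p.1 p.2 := by
  unfold out
  exact Code.primrec_evaln.comp
    ((Primrec.snd.pair ((Primrec.ofNat Code).comp Primrec.fst)).pair
      (prim_vert' Primrec.fst (Primrec.const 0) (Primrec.const 0) (Primrec.const 0)))

lemma prim_act : Primrec fun p : ℕ × ℕ => act p.1 p.2 := by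
  unfold act
  have h : Primrec₂ (fun (p : ℕ × ℕ) (b : ℕ) =>
      decide ((p.2 + b) % 2 = 0) && !(out p.1 (p.2 - 1)).isSome) := by
    have h1 : Primrec (fun q : (ℕ × ℕ) × ℕ => decide ((q.1.2 + q.2) % 2 = 0)) :=
      (PrimrecRel.decide Primrec.eq).comp
        (Primrec.nat_mod.comp (Primrec.nat_add.comp (Primrec.snd.comp Primrec.fst) Primrec.snd)
          (Primrec.const 2)) (Primrec.const 0)
    have h2 : Primrec (fun q : (ℕ × ℕ) × ℕ => !(out q.1.1 (q.1.2 - 1)).isSome) :=
      Primrec.not.comp (Primrec.option_isSome.comp (prim_out.comp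
        ((Primrec.fst.comp Primrec.fst).pair
          (Primrec.nat_sub.comp (Primrec.snd.comp Primrec.fst) (Primrec.const 1)))))
    exact Primrec.and.comp h1 h2
  exact Primrec.option_casesOn prim_out (Primrec.const true) h

lemma prim_act' {α : Type} [Primcodable α] {a b : α → ℕ} (ha : Primrec a) (hb : Primrec b) :
    Primrec fun x => act (a x) (b x) := prim_act.comp (ha.pair hb)

lemma prim_Hn : Primrec Hn := by
  unfold Hn
  exact (Primrec.list_getD []).comp (Primrec.const Htab) Primrec.id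

lemma prim_gad {α : Type} [Primcodable α] {a b : α → ℕ} (ha : Primrec a) (hb : Primrec b) :
    Primrec fun x => gad (a x) (b x) := by
  unfold gad
  refine Primrec.and.comp (Primrec.not.comp (prim_act' ha hb)) (Primrec.and.comp ?_ ?_)
  · exact (PrimrecRel.decide Primrec.nat_le).comp (Primrec.const 1) hb
  · exact prim_act' ha (Primrec.nat_sub.comp hb (Primrec.const 1))

lemma prim_Lc : Primrec Lc := by
  unfold Lc
  have h4 : Primrec fun x : ℕ => 4 * pi' x := Primrec.nat_mul.comp (Primrec.const 4) prim_pi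
  have hl : Primrec fun x : ℕ => pl x + 1 := Primrec.nat_add.comp prim_pl (Primrec.const 1)
  refine Primrec.cond ?_ ?_ (Primrec.const [])
  · exact Primrec.and.comp ((PrimrecRel.decide Primrec.eq).comp prim_pg (Primrec.const 0))
      (prim_act' prim_pe prim_pl)
  · refine Primrec.list_cons.comp (prim_vert' prim_pe hl h4 (Primrec.const 0)) ?_
    refine Primrec.list_cons.comp (prim_vert' prim_pe hl (Primrec.nat_add.comp h4 (Primrec.const 1)) (Primrec.const 0)) ?_
    refine Primrec.list_cons.comp (prim_vert' prim_pe hl (Primrec.nat_add.comp h4 (Primrec.const 2)) (Primrec.const 0)) ?_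
    exact Primrec.list_cons.comp (prim_vert' prim_pe hl (Primrec.nat_add.comp h4 (Primrec.const 3)) (Primrec.const 0)) (Primrec.const [])

lemma prim_Lp : Primrec Lp := by
  unfold Lp
  have hl : Primrec fun x : ℕ => pl x - 1 := Primrec.nat_sub.comp prim_pl (Primrec.const 1)
  refine Primrec.cond ?_ ?_ (Primrec.const [])
  · exact Primrec.and.comp ((PrimrecRel.decide Primrec.eq).comp prim_pg (Primrec.const 0))
      (Primrec.and.comp ((PrimrecRel.decide Primrec.nat_le).comp (Primrec.const 1) prim_pl)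
      (prim_act' prim_pe hl))
  · exact Primrec.list_cons.comp (prim_vert' prim_pe hl (Primrec.nat_div.comp prim_pi (Primrec.const 4)) (Primrec.const 0)) (Primrec.const [])

lemma prim_Lg : Primrec Lg := by
  unfold Lg
  refine Primrec.cond (prim_gad prim_pe prim_pl) ?_ (Primrec.const [])
  refine Primrec.list_map (prim_Hn.comp prim_pg) ?_
  exact prim_vert' (prim_pe.comp Primrec.fst) (prim_pl.comp Primrec.fst) (prim_pi.comp Primrec.fst) Primrec.snd

lemma prim_L : Primrec L := by
  unfold L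
  exact Primrec.list_append.comp prim_Lc (Primrec.list_append.comp prim_Lp prim_Lg)

/-! ### structure -/
lemma mem_Lc {x y : ℕ} : y ∈ Lc x ↔ pg x = 0 ∧ act (pe x) (pl x) = true ∧
    ∃ j < 4, y = vert (pe x) (pl x + 1) (4 * pi' x + j) 0 := by
  unfold Lc
  by_cases h0 : pg x = 0 <;> cases h1 : act (pe x) (pl x) <;> simp [h0]
  constructor
  · rintro (rfl | rfl | rfl | rfl)
    · exact ⟨0, by norm_num, by simp⟩
    · exact ⟨1, by norm_num, rfl⟩
    · exact ⟨2, by norm_num, rfl⟩
    · exact ⟨3, by norm_num, rfl⟩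
  · rintro ⟨j, hj, rfl⟩
    interval_cases j <;> simp

lemma mem_Lp {x y : ℕ} : y ∈ Lp x ↔ pg x = 0 ∧ 1 ≤ pl x ∧ act (pe x) (pl x - 1) = true ∧
    y = vert (pe x) (pl x - 1) (pi' x / 4) 0 := by
  unfold Lp
  by_cases h0 : pg x = 0 <;> by_cases h2 : 1 ≤ pl x <;> cases h1 : act (pe x) (pl x - 1) <;>
    simp [h0, h2]

lemma mem_Lg {x y : ℕ} : y ∈ Lg x ↔ gad (pe x) (pl x) = true ∧
    ∃ g ∈ Hn (pg x), y = vert (pe x) (pl x) (pi' x) g := by
  unfold Lg
  cases h : gad (pe x) (pl x) <;> simp [eq_comm]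

lemma mem_L {x y : ℕ} : y ∈ L x ↔ y ∈ Lc x ∨ y ∈ Lp x ∨ y ∈ Lg x := by
  simp [L]

lemma Hn_cases (g : ℕ) : g < 10 ∨ Hn g = [] := by
  rcases lt_or_ge g 10 with h | h
  · exact Or.inl h
  · right
    unfold Hn
    rw [List.getD_eq_getElem?_getD, List.getElem?_eq_none]
    · rfl
    · simpa [Htab] using h

lemma Hn_symm {g g' : ℕ} (h : g' ∈ Hn g) : g ∈ Hn g' := by
  rcases Hn_cases g with hg | hg
  · have : ∀ g < 10, ∀ g' ∈ Hn g, g ∈ Hn g' := by decide
    exact this g hg g' h
  · rw [hg] at h; simp at h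

lemma Hn_irr (g : ℕ) : g ∉ Hn g := by
  rcases Hn_cases g with hg | hg
  · have : ∀ g < 10, g ∉ Hn g := by decide
    exact this g hg
  · rw [hg]; simp

lemma Hn_nodup (g : ℕ) : (Hn g).Nodup := by
  rcases Hn_cases g with hg | hg
  · have : ∀ g < 10, (Hn g).Nodup := by decide
    exact this g hg
  · rw [hg]; simp

lemma Hn_len (g : ℕ) : (Hn g).length ≤ 5 := by
  rcases Hn_cases g with hg | hg
  · have : ∀ g < 10, (Hn g).length ≤ 5 := by decide
    exact this g hg
  · rw [hg]; simp

lemma Hn_len0 : (Hn 0).length = 4 := by decide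

lemma L_symm {x y : ℕ} (h : y ∈ L x) : x ∈ L y := by
  rw [mem_L] at h ⊢
  rcases h with h | h | h
  · right; left
    rw [mem_Lc] at h
    obtain ⟨h0, h1, j, hj, rfl⟩ := h
    rw [mem_Lp]
    refine ⟨by simp, by simp, by simpa using h1, ?_⟩
    have : (4 * pi' x + j) / 4 = pi' x := by omega
    simp only [pe_vert, pl_vert, pi_vert, this, Nat.add_sub_cancel]
    conv_lhs => rw [← vert_eta x]
    rw [h0]
  · left
    rw [mem_Lp] at h
    obtain ⟨h0, h1, h2, rfl⟩ := h
    rw [mem_Lc]
    refine ⟨by simp, by simpa using h2, pi' x % 4, Nat.mod_lt _ (by norm_num), ?_⟩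
    simp only [pe_vert, pl_vert, pi_vert]
    have e1 : pl x - 1 + 1 = pl x := by omega
    have e2 : 4 * (pi' x / 4) + pi' x % 4 = pi' x := by omega
    rw [e1, e2]
    conv_lhs => rw [← vert_eta x]
    rw [h0]
  · right; right
    rw [mem_Lg] at h
    obtain ⟨h0, g, hg, rfl⟩ := h
    rw [mem_Lg]
    refine ⟨by simpa using h0, pg x, by simpa using Hn_symm hg, ?_⟩
    simp [vert_eta]

lemma L_irr (x : ℕ) : x ∉ L x := by
  intro h
  rw [mem_L] at h
  rcases h with h | h | h
  · rw [mem_Lc] at h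
    obtain ⟨h0, h1, j, hj, hx⟩ := h
    have := congrArg pl hx
    simp at this
  · rw [mem_Lp] at h
    obtain ⟨h0, h1, h2, hx⟩ := h
    have := congrArg pl hx
    simp at this
    omega
  · rw [mem_Lg] at h
    obtain ⟨h0, g, hg, hx⟩ := h
    have := congrArg pg hx
    simp at this
    rw [← this] at hg
    exact Hn_irr _ hg

/-- the graph -/
def G : SimpleGraph ℕ where
  Adj x y := y ∈ L x
  symm := ⟨fun _ _ h => L_symm h⟩
  loopless := ⟨fun x h => L_irr x h⟩

lemma Lc_nodup (x : ℕ) : (Lc x).Nodup := by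
  unfold Lc
  cases (decide (pg x = 0) && act (pe x) (pl x))
  · simp
  · simp [vert_inj]

lemma Lp_nodup (x : ℕ) : (Lp x).Nodup := by
  unfold Lp
  cases (decide (pg x = 0) && (decide (1 ≤ pl x) && act (pe x) (pl x - 1)))
  · simp
  · simp

lemma Lg_nodup (x : ℕ) : (Lg x).Nodup := by
  unfold Lg
  cases gad (pe x) (pl x)
  · simp
  · simp only [cond_true]
    refine (Hn_nodup _).map ?_
    intro a b h
    exact (vert_inj.1 h).2.2.2

lemma L_nodup (x : ℕ) : (L x).Nodup := by
  unfold L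
  rw [List.nodup_append', List.nodup_append']
  refine ⟨Lc_nodup x, ⟨Lp_nodup x, Lg_nodup x, ?_⟩, ?_⟩
  · intro y hy hy'
    rw [mem_Lp] at hy; rw [mem_Lg] at hy'
    obtain ⟨-, h1, -, rfl⟩ := hy
    obtain ⟨-, g, -, h⟩ := hy'
    have := (vert_inj.1 h).2.1
    omega
  · intro y hy hy'
    rw [mem_Lc] at hy
    obtain ⟨-, -, j, -, rfl⟩ := hy
    rw [List.mem_append, mem_Lp, mem_Lg] at hy'
    rcases hy' with ⟨-, -, -, h⟩ | ⟨-, g, -, h⟩
    · have := (vert_inj.1 h).2.1; omega
    · have := (vert_inj.1 h).2.1; omega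

lemma act_zero (e : ℕ) : act e 0 = true := by
  have : out e 0 = none := by
    unfold out
    cases h : Code.evaln 0 (Denumerable.ofNat Code e) (vert e 0 0 0) with
    | none => rfl
    | some v => exact absurd (Code.evaln_bound h) (by omega)
  simp [act, this]

lemma L_len (x : ℕ) : (L x).length ≤ 5 := by
  unfold L
  rw [List.length_append, List.length_append]
  unfold Lc Lp Lg gad
  by_cases h0 : pg x = 0 <;> cases h1 : act (pe x) (pl x) <;> by_cases h2 : 1 ≤ pl x <;>
    cases h3 : act (pe x) (pl x - 1) <;> simp [h0, h2]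
  all_goals try exact Hn_len _
  all_goals try (rw [Hn_len0])

lemma L_len_one (e i : ℕ) : (L (vert e 1 i 0)).length = 5 := by
  unfold L
  rw [List.length_append, List.length_append]
  unfold Lc Lp Lg gad
  cases h1 : act e 1 <;> simp [h1, act_zero, Hn_len0]

lemma neighborSet_eq (x : ℕ) : G.neighborSet x = ((L x).toFinset : Set ℕ) := by
  ext y; simp [G, SimpleGraph.neighborSet]

lemma neighborSet_finite (x : ℕ) : (G.neighborSet x).Finite := by
  rw [neighborSet_eq]; exact Finset.finite_toSet _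

lemma neighborSet_ncard (x : ℕ) : (G.neighborSet x).ncard = (L x).length := by
  rw [neighborSet_eq, Set.ncard_coe_finset, List.toFinset_card_of_nodup (L_nodup x)]

lemma computable_adj : ComputablePred (fun p : ℕ × ℕ => G.Adj p.1 p.2) := by
  have h1 : PrimrecRel (fun (l : List ℕ) (b : ℕ) => ∃ a ∈ l, a = b) :=
    PrimrecRel.exists_mem_list Primrec.eq
  have h2 : PrimrecPred (fun p : ℕ × ℕ => ∃ a ∈ L p.1, a = p.2) :=
    h1.comp (prim_L.comp Primrec.fst) Primrec.snd
  refine (h2.of_eq ?_).computablePred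
  intro p
  simp [G]

lemma computable_deg : Computable (fun x => (L x).length) :=
  (Primrec.list_length.comp prim_L).to_comp

end Pool.H109.Lov
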