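import Mathlib
import Pool.Agent.H109R3.Lov.Graph
set_option autoImplicit false
namespace Pool.H109.Lov
open Nat.Partrec (Code)

lemma cnt_eq (l : List ℕ) (b : ℕ → Bool) : cnt (l.map b) = (l.filter b).length := by
  induction l with
  | nil => rfl
  | cons a l ih =>
    simp only [cnt, List.map_cons, List.sum_cons, List.filter_cons] at ih ⊢
    rw [ih]
    cases b a <;> simp [Nat.add_comm]

lemma cnt_le {S : Set ℕ} (hS : S.Finite) (M : List ℕ) (hM : M.Nodup) (f : ℕ → ℕ)
    (hf : Function.Injective f) (b : ℕ → Bool) (h : ∀ g ∈ M, b g = true → f g ∈ S) :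
    cnt (M.map b) ≤ S.ncard := by
  rw [cnt_eq]
  have h1 : ((M.filter b).map f).Nodup := (hM.filter _).map hf
  have h2 : (M.filter b).length = (((M.filter b).map f).toFinset : Set ℕ).ncard := by
    rw [Set.ncard_coe_finset, List.toFinset_card_of_nodup h1, List.length_map]
  rw [h2]
  refine Set.ncard_le_ncard ?_ hS
  intro y hy
  simp only [List.coe_toFinset, List.mem_map, List.mem_filter, Set.mem_setOf_eq] at hy
  obtain ⟨g, ⟨hg, hb⟩, rfl⟩ := hy
  exact h g hg hb

lemma vert_injg (e l i : ℕ) : Function.Injective (fun g => vert e l i g) :=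
  fun _ _ h => (vert_inj.1 h).2.2.2

lemma vert_injc (e l i : ℕ) : Function.Injective (fun j => vert e (l+1) (4*i+j) 0) := by
  intro a b h
  have := (vert_inj.1 h).2.2.1
  omega

section
variable {V₁ V₂ : Set ℕ} (hU : V₁ ∪ V₂ = Set.univ) (hD : Disjoint V₁ V₂)
  (h1 : ∀ x ∈ V₁, (G.neighborSet x ∩ V₁).ncard ≤ 1)
  (h2 : ∀ x ∈ V₂, (G.neighborSet x ∩ V₂).ncard ≤ 3)
include hU hD h1 h2

open Classical in
lemma okv_vert (e l i : ℕ) (hg : gad e l = true) (g : ℕ) :
    okv (decide (vert e l i g ∈ V₁)) ((Hn g).map (fun g' => decide (vert e l i g' ∈ V₁))) = true := by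
  have hadj : ∀ g' ∈ Hn g, vert e l i g' ∈ G.neighborSet (vert e l i g) := by
    intro g' hg'
    show vert e l i g' ∈ L (vert e l i g)
    rw [mem_L]; right; right
    rw [mem_Lg]
    exact ⟨by simpa using hg, g', by simpa using hg', by simp⟩
  by_cases hx : vert e l i g ∈ V₁
  · simp only [hx, decide_true, okv, cond_true]
    rw [Nat.ble_eq]
    refine le_trans (cnt_le ((neighborSet_finite (vert e l i g)).inter_of_left V₁) (Hn g)
      (Hn_nodup g) (fun g => vert e l i g) (vert_injg e l i) _ ?_) (h1 _ hx)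
    intro g' hg' hb
    exact ⟨hadj g' hg', by simpa using hb⟩
  · have hx2 : vert e l i g ∈ V₂ := by
      have : vert e l i g ∈ V₁ ∪ V₂ := by rw [hU]; trivial
      exact this.resolve_left hx
    simp only [hx, decide_false, okv, cond_false, List.map_map]
    rw [Nat.ble_eq]
    refine le_trans (cnt_le ((neighborSet_finite (vert e l i g)).inter_of_left V₂) (Hn g)
      (Hn_nodup g) (fun g => vert e l i g) (vert_injg e l i) _ ?_) (h2 _ hx2)
    intro g' hg' hb
    refine ⟨hadj g' hg', ?_⟩
    have : vert e l i g' ∈ V₁ ∪ V₂ := by rw [hU]; trivial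
    refine this.resolve_left ?_
    simpa using hb

lemma leaf (e l i : ℕ) (hg : gad e l = true) : vert e l i 0 ∈ V₂ := by
  classical
  have hk := okv_vert hU hD h1 h2 e l i hg
  have := gadget (decide (vert e l i 0 ∈ V₁)) (decide (vert e l i 1 ∈ V₁))
    (decide (vert e l i 2 ∈ V₁)) (decide (vert e l i 3 ∈ V₁)) (decide (vert e l i 4 ∈ V₁))
    (decide (vert e l i 5 ∈ V₁)) (decide (vert e l i 6 ∈ V₁)) (decide (vert e l i 7 ∈ V₁))
    (decide (vert e l i 8 ∈ V₁)) (decide (vert e l i 9 ∈ V₁)) (by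
      have k0 := hk 0; have k1 := hk 1; have k2 := hk 2; have k3 := hk 3; have k4 := hk 4
      have k5 := hk 5; have k6 := hk 6; have k7 := hk 7; have k8 := hk 8; have k9 := hk 9
      have e0 : Hn 0 = [1,4,5,6] := rfl
      have e1 : Hn 1 = [0,4,6,7,8] := rfl
      have e2 : Hn 2 = [4,6,7,8,9] := rfl
      have e3 : Hn 3 = [4,6,7,8,9] := rfl
      have e4 : Hn 4 = [0,1,2,3,5] := rfl
      have e5 : Hn 5 = [0,4,6,7,8] := rfl
      have e6 : Hn 6 = [0,1,2,3,5] := rfl
      have e7 : Hn 7 = [1,2,3,5,9] := rfl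
      have e8 : Hn 8 = [1,2,3,5,9] := rfl
      have e9 : Hn 9 = [2,3,7,8] := rfl
      rw [e0] at k0; rw [e1] at k1; rw [e2] at k2; rw [e3] at k3; rw [e4] at k4
      rw [e5] at k5; rw [e6] at k6; rw [e7] at k7; rw [e8] at k8; rw [e9] at k9
      simp only [List.map_cons, List.map_nil] at k0 k1 k2 k3 k4 k5 k6 k7 k8 k9
      simp only [k0, k1, k2, k3, k4, k5, k6, k7, k8, k9, Bool.and_self])
  have h3 : vert e l i 0 ∈ V₁ ∪ V₂ := by rw [hU]; trivial
  refine h3.resolve_left ?_
  simpa using this

lemma step2 (e l i : ℕ) (ha : act e l = true) (hc : ∀ j < 4, vert e (l+1) (4*i+j) 0 ∈ V₂) :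
    vert e l i 0 ∈ V₁ := by
  have h3 : vert e l i 0 ∈ V₁ ∪ V₂ := by rw [hU]; trivial
  refine h3.resolve_right ?_
  intro hx
  have := cnt_le ((neighborSet_finite (vert e l i 0)).inter_of_left V₂) [0,1,2,3]
    (by decide) (fun j => vert e (l+1) (4*i+j) 0) (vert_injc e l i) (fun _ => true) (by
      intro g hg _
      have hg4 : g < 4 := by simp at hg; omega
      refine ⟨?_, hc g hg4⟩
      show _ ∈ L _
      rw [mem_L]; left
      rw [mem_Lc]
      exact ⟨by simp, by simpa using ha, g, hg4, by simp⟩)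
  have h4 : cnt ([0,1,2,3].map (fun _ : ℕ => true)) = 4 := rfl
  rw [h4] at this
  have := h2 _ hx
  omega

lemma step1 (e l i : ℕ) (ha : act e l = true) (hc : ∀ j < 4, vert e (l+1) (4*i+j) 0 ∈ V₁) :
    vert e l i 0 ∈ V₂ := by
  have h3 : vert e l i 0 ∈ V₁ ∪ V₂ := by rw [hU]; trivial
  refine h3.resolve_left ?_
  intro hx
  have := cnt_le ((neighborSet_finite (vert e l i 0)).inter_of_left V₁) [0,1,2,3]
    (by decide) (fun j => vert e (l+1) (4*i+j) 0) (vert_injc e l i) (fun _ => true) (by
      intro g hg _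
      have hg4 : g < 4 := by simp at hg; omega
      refine ⟨?_, hc g hg4⟩
      show _ ∈ L _
      rw [mem_L]; left
      rw [mem_Lc]
      exact ⟨by simp, by simpa using ha, g, hg4, by simp⟩)
  have h4 : cnt ([0,1,2,3].map (fun _ : ℕ => true)) = 4 := rfl
  rw [h4] at this
  have := h1 _ hx
  omega

/-- colours of the tree levels are forced downwards from the level `T` of the gadgets -/
lemma forced (e T : ℕ) (hT : gad e T = true) (ha : ∀ l < T, act e l = true) :
    ∀ d ≤ T, ∀ i, (d % 2 = 0 → vert e (T - d) i 0 ∈ V₂) ∧ (d % 2 = 1 → vert e (T - d) i 0 ∈ V₁) := by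
  intro d
  induction d with
  | zero => intro _ i; exact ⟨fun _ => leaf hU hD h1 h2 e T i hT, fun h => by simp at h⟩
  | succ d ih =>
    intro hd i
    have ih' := ih (by omega)
    have hl : T - (d+1) + 1 = T - d := by omega
    have hact : act e (T - (d+1)) = true := ha _ (by omega)
    constructor
    · intro hp
      refine step1 hU hD h1 h2 e _ i hact ?_
      intro j hj
      rw [hl]
      exact (ih' _).2 (by omega)
    · intro hp
      refine step2 hU hD h1 h2 e _ i hact ?_
      intro j hj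
      rw [hl]
      exact (ih' _).1 (by omega)

end

lemma act_of_none {e l : ℕ} (h : out e l = none) : act e l = true := by
  simp [act, h]

lemma out_mono {e l l' b : ℕ} (h : l ≤ l') (hb : out e l = some b) : out e l' = some b :=
  Code.evaln_mono h hb

/-- for a machine halting on its root with value `b` there is a stopping level `T` of the right parity -/
lemma exists_T (e b t : ℕ) (hb : out e t = some b) :
    ∃ T, gad e T = true ∧ (∀ l < T, act e l = true) ∧ (T + b) % 2 = 1 := by
  classical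
  have hex : ∃ t, out e t ≠ none := ⟨t, by rw [hb]; simp⟩
  set t₀ := Nat.find hex with ht₀
  have h0 : out e t₀ ≠ none := Nat.find_spec hex
  have hmin : ∀ l < t₀, out e l = none := fun l hl => not_not.1 (Nat.find_min hex hl)
  have hval : out e t₀ = some b := by
    obtain ⟨b', hb'⟩ := Option.ne_none_iff_exists'.1 h0
    have e1 := out_mono (le_max_left t₀ t) hb'
    have e2 := out_mono (le_max_right t₀ t) hb
    rw [e1] at e2
    rw [hb', Option.some.inj e2]
  have hpos : 1 ≤ t₀ := by
    rcases Nat.eq_zero_or_pos t₀ with h | h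
    · exfalso
      rw [h] at hval
      have := Code.evaln_bound hval
      omega
    · exact h
  have hprev : out e (t₀ - 1) = none := hmin _ (by omega)
  have hactlt : ∀ l < t₀, act e l = true := fun l hl => act_of_none (hmin l hl)
  by_cases hp : (t₀ + b) % 2 = 1
  · refine ⟨t₀, ?_, hactlt, hp⟩
    have ha : act e t₀ = false := by
      simp only [act, hval]
      have : ¬ (t₀ + b) % 2 = 0 := by omega
      simp [this]
    simp [gad, ha, hpos, hactlt (t₀ - 1) (by omega)]
  · have hp0 : (t₀ + b) % 2 = 0 := by omega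
    have ha : act e t₀ = true := by
      simp [act, hval, hp0, hprev]
    have hval1 : out e (t₀ + 1) = some b := out_mono (by omega) hval
    have ha1 : act e (t₀ + 1) = false := by
      have : ¬ (t₀ + 1 + b) % 2 = 0 := by omega
      simp [act, hval1, this]
    refine ⟨t₀ + 1, ?_, ?_, by omega⟩
    · simp [gad, ha1, ha]
    · intro l hl
      rcases Nat.lt_succ_iff_lt_or_eq.1 hl with h | h
      · exact hactlt l h
      · rw [h]; exact ha

theorem no_partition : ¬ ∃ V₁ V₂ : Set ℕ,
        ComputablePred (fun x : ℕ => x ∈ V₁) ∧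
        ComputablePred (fun x : ℕ => x ∈ V₂) ∧
        V₁ ∪ V₂ = Set.univ ∧ Disjoint V₁ V₂ ∧
        (∀ x ∈ V₁, (G.neighborSet x ∩ V₁).ncard ≤ 1) ∧
        (∀ x ∈ V₂, (G.neighborSet x ∩ V₂).ncard ≤ 3) := by
  rintro ⟨V₁, V₂, hc1, -, hU, hD, h1, h2⟩
  obtain ⟨hdec, hcomp⟩ := hc1
  -- the characteristic function
  have hf : Computable (fun x : ℕ => bif decide (x ∈ V₁) then 1 else 0) :=
    Computable.cond hcomp (Computable.const 1) (Computable.const 0)
  obtain ⟨c, hc⟩ := Code.exists_code.1 (Partrec.nat_iff.1 hf)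
  set e := Encodable.encode c with he
  have hce : Denumerable.ofNat Code e = c := Denumerable.ofNat_encode c
  set x₀ := vert e 0 0 0 with hx₀
  have hev : (bif decide (x₀ ∈ V₁) then 1 else 0) ∈ Code.eval c x₀ := by
    rw [hc]; simp
  obtain ⟨t, ht⟩ := Code.evaln_complete.1 hev
  have hout : out e t = some (bif decide (x₀ ∈ V₁) then 1 else 0) := by
    unfold out; rw [hce]; exact ht
  obtain ⟨T, hT, hact, hpar⟩ := exists_T e _ t hout
  have hfor := forced hU hD h1 h2 e T hT hact T le_rfl 0
  rw [Nat.sub_self] at hfor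
  by_cases hx : x₀ ∈ V₁
  · simp only [hx, decide_true, cond_true] at hpar
    have : x₀ ∈ V₂ := hfor.1 (by omega)
    exact Set.disjoint_left.1 hD hx this
  · simp only [hx, decide_false, cond_false] at hpar
    exact hx (hfor.2 (by omega))

end Pool.H109.Lov
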